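import Pool.Agent.Q131.PO4.Defs
import Pool.Agent.TH505.OCDC.Decomp

set_option autoImplicit false

/-! Project PO4 (helper131), job PO1: two-factor decomposition. -/

namespace Pool.Agent.Q238.PO

open Pool.Agent.Q131.PO4 Finset Pool.Agent.TH505.OCDC

theorem dg_eq_sum {V : Type} [Fintype V] (G : SimpleGraph V) (v : V) :
    dg G v = ∑ w, ind (G.Adj v w) := by
  classical
  unfold dg ind
  rw [card_filter]

theorem decomp : S_decomp := by
  intro V _ G hev hle
  classical
  obtain ⟨g, hg1, hg2, hg3, hg4⟩ := orient G _ G.Adj rfl (fun u v h => h) (fun u v h => h.symm)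
    (fun v => by rw [← dg_eq_sum]; exact hev v)
  -- out-degree
  have hsplit : ∀ u w, ind (G.Adj u w) = ind (g u w = 1) + ind (g w u = 1) := by
    intro u w
    by_cases h : G.Adj u w
    · rcases hg2 u w h with h1 | h1
      · rw [ind_pos h, ind_pos h1, ind_neg]
        rw [hg1, h1]
        norm_num
      · rw [ind_pos h, ind_neg (by rw [h1]; norm_num), ind_pos]
        rw [hg1, h1]
        norm_num
    · have h1 := hg3 u w h
      rw [ind_neg h, ind_neg (by rw [h1]; norm_num), ind_neg]
      rw [hg1, h1]
      norm_num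
  have hdiff : ∀ u w, g u w = (ind (g u w = 1) : ℤ) - (ind (g w u = 1) : ℤ) := by
    intro u w
    by_cases h : G.Adj u w
    · rcases hg2 u w h with h1 | h1
      · rw [h1, ind_pos rfl, ind_neg]
        · norm_num
        · rw [hg1, h1]
          norm_num
      · rw [h1, ind_neg (by norm_num), ind_pos]
        · norm_num
        · rw [hg1, h1]
          norm_num
    · have h1 := hg3 u w h
      rw [h1, ind_neg (by norm_num), ind_neg]
      · norm_num
      · rw [hg1, h1]
        norm_num
  have heq : ∀ u, ∑ w, ind (g u w = 1) = ∑ w, ind (g w u = 1) := by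
    intro u
    have h1 := hg4 u
    rw [sum_congr rfl (fun w _ => hdiff u w), sum_sub_distrib] at h1
    have h2 : ((∑ w, ind (g u w = 1) : ℕ) : ℤ) = ((∑ w, ind (g w u = 1) : ℕ) : ℤ) := by
      push_cast
      linarith
    exact_mod_cast h2
  have hdeg : ∀ u, dg G u = 2 * ∑ w, ind (g u w = 1) := by
    intro u
    rw [dg_eq_sum, sum_congr rfl (fun w _ => hsplit u w), sum_add_distrib, ← heq u]
    ring
  -- weights
  set m : V → V → ℕ := fun v w => ind (g v w = 1) + if v = w then 2 - dg G v / 2 else 0 with hm
  have hself : ∀ v, g v v = 0 := by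
    intro v
    exact hg3 v v (G.loopless.irrefl v)
  have hrow : ∀ v, ∑ w, m v w = 2 := by
    intro v
    simp only [hm]
    rw [sum_add_distrib, sum_ite_eq, if_pos (mem_univ _)]
    have h1 := hdeg v
    have h2 := hle v
    omega
  have hcol : ∀ w, ∑ v, m v w = 2 := by
    intro w
    simp only [hm]
    rw [sum_add_distrib, ← heq w, sum_ite_eq', if_pos (mem_univ _)]
    have h1 := hdeg w
    have h2 := hle w
    omega
  set T : V → Finset V := fun v => univ.filter (fun w => 0 < m v w) with hT
  have hhall : ∀ s : Finset V, s.card ≤ (s.biUnion T).card := by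
    intro s
    have h1 : 2 * s.card = ∑ v ∈ s, ∑ w ∈ s.biUnion T, m v w := by
      have h2 : ∀ v ∈ s, ∑ w ∈ s.biUnion T, m v w = 2 := by
        intro v hv
        rw [← hrow v]
        apply sum_subset (subset_univ _)
        intro w _ hw
        by_contra h
        apply hw
        rw [mem_biUnion]
        exact ⟨v, hv, mem_filter.2 ⟨mem_univ _, Nat.pos_of_ne_zero h⟩⟩
      rw [sum_congr rfl h2, sum_const, smul_eq_mul, mul_comm]
    have h3 : ∑ v ∈ s, ∑ w ∈ s.biUnion T, m v w ≤ 2 * (s.biUnion T).card := by
      rw [sum_comm]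
      calc ∑ w ∈ s.biUnion T, ∑ v ∈ s, m v w ≤ ∑ w ∈ s.biUnion T, 2 := by
            apply sum_le_sum
            intro w _
            rw [← hcol w]
            exact sum_le_sum_of_subset (subset_univ _)
        _ = _ := by rw [sum_const, smul_eq_mul, mul_comm]
    omega
  obtain ⟨f, hfinj, hfT⟩ := (all_card_le_biUnion_card_iff_exists_injective T).1 hhall
  have hf : ∀ v, g v (f v) = 1 ∨ (f v = v ∧ dg G v ≤ 2) := by
    intro v
    have h1 := (mem_filter.1 (hfT v)).2
    simp only [hm] at h1
    by_cases h2 : g v (f v) = 1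
    · exact Or.inl h2
    · right
      rw [ind_neg h2, zero_add] at h1
      by_cases h3 : v = f v
      · rw [if_pos h3] at h1
        refine ⟨h3.symm, ?_⟩
        have h5 := hdeg v
        omega
      · rw [if_neg h3] at h1
        exact absurd h1 (lt_irrefl _)
  have hfadj : ∀ v, f v ≠ v → g v (f v) = 1 ∧ G.Adj v (f v) := by
    intro v hv
    rcases hf v with h | h
    · refine ⟨h, ?_⟩
      by_contra h2
      rw [hg3 v _ h2] at h
      norm_num at h
    · exact absurd h.1 hv
  have hfsurj : Function.Surjective f := Finite.injective_iff_surjective.1 hfinj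
  set R : SimpleGraph V := SimpleGraph.fromRel (fun x y => f x = y) with hR
  have hRadj : ∀ x y, R.Adj x y ↔ x ≠ y ∧ (f x = y ∨ f y = x) := by
    intro x y
    rw [hR, SimpleGraph.fromRel_adj]
  have hRG : R ≤ G := by
    intro x y hxy
    rw [hRadj] at hxy
    obtain ⟨hne, h | h⟩ := hxy
    · rw [← h]
      exact (hfadj x (by rw [h]; exact hne.symm)).2
    · rw [← h]
      exact (hfadj y (by rw [h]; exact hne)).2.symm
  have hdR : ∀ x, dg R x = if f x = x then 0 else 2 := by
    intro x
    obtain ⟨z, hz⟩ := hfsurj x
    by_cases hx : f x = x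
    · rw [if_pos hx]
      unfold dg
      rw [card_eq_zero]
      ext y
      simp only [mem_filter, mem_univ, true_and, notMem_empty, iff_false]
      rw [hRadj]
      rintro ⟨hne, h | h⟩
      · exact hne (by rw [← hx, h])
      · exact hne (hfinj (by rw [hx, h]))
    · rw [if_neg hx]
      have hzx : z ≠ x := by
        intro h
        rw [h] at hz
        exact hx hz
      have hfz : f z ≠ z := by
        rw [hz]
        exact hzx.symm
      have hne : f x ≠ z := by
        intro h
        have h1 := (hfadj x hx).1
        have h2 := (hfadj z hfz).1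
        rw [h] at h1
        rw [hz, hg1, h1] at h2
        norm_num at h2
      unfold dg
      rw [card_eq_two]
      refine ⟨f x, z, hne, ?_⟩
      ext y
      simp only [mem_filter, mem_univ, true_and, mem_insert, mem_singleton]
      rw [hRadj]
      constructor
      · rintro ⟨_, h | h⟩
        · exact Or.inl h.symm
        · exact Or.inr (hfinj (by rw [h, hz]))
      · rintro (h | h)
        · rw [h]
          exact ⟨fun h' => hx h'.symm, Or.inl rfl⟩
        · rw [h]
          exact ⟨hzx.symm, Or.inr hz⟩
  have hadd : ∀ x, dg G x = dg R x + dg (G \ R) x := by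
    intro x
    rw [dg_eq_sum, dg_eq_sum, dg_eq_sum, ← sum_add_distrib]
    apply sum_congr rfl
    intro w _
    by_cases h : G.Adj x w
    · by_cases h2 : R.Adj x w
      · rw [ind_pos h, ind_pos h2, ind_neg (fun h3 => h3.2 h2)]
      · rw [ind_pos h, ind_neg h2, ind_pos ⟨h, h2⟩]
    · rw [ind_neg h, ind_neg (fun h2 => h (hRG h2)), ind_neg (fun h2 => h h2.1)]
  refine ⟨R, G \ R, ?_, ?_, ?_, ?_⟩
  · exact sup_sdiff_cancel_right hRG
  · intro x y h h2
    exact h2.2 h
  · intro v
    rw [hdR v]
    split_ifs
    · exact Or.inl rfl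
    · exact Or.inr rfl
  · intro v
    have h1 := hadd v
    rw [hdR v] at h1
    have h2 := hdeg v
    have h3 := hle v
    rcases hf v with h | h
    · have hne : f v ≠ v := by
        intro h4
        rw [h4, hself v] at h
        norm_num at h
      rw [if_neg hne] at h1
      omega
    · rw [if_pos h.1] at h1
      have h4 := h.2
      omega

end Pool.Agent.Q238.PO
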