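import Pool.Agent.Q131.PO4.Defs

set_option autoImplicit false

/-! Project PO4 (helper131), job PO7: blue selection. -/

namespace Pool.Agent.Q238.PO

open Pool.Agent.Q131.PO4 Finset

section

variable {V : Type} [Fintype V]

theorem not_adj_of_dg_zero {G : SimpleGraph V} {v w : V} (h : dg G v = 0) : ¬ G.Adj v w := by
  classical
  intro hw
  unfold dg at h
  rw [card_eq_zero] at h
  have : w ∈ univ.filter (fun w => G.Adj v w) := mem_filter.2 ⟨mem_univ _, hw⟩
  rw [h] at this
  exact notMem_empty _ this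

theorem two_nbrs {G : SimpleGraph V} {v : V} (h : dg G v = 2) :
    ∃ a b, a ≠ b ∧ G.Adj v a ∧ G.Adj v b := by
  classical
  unfold dg at h
  obtain ⟨a, b, hab, hs⟩ := card_eq_two.1 h
  have ha : a ∈ univ.filter (fun w => G.Adj v w) := by rw [hs]; simp
  have hb : b ∈ univ.filter (fun w => G.Adj v w) := by rw [hs]; simp
  exact ⟨a, b, hab, (mem_filter.1 ha).2, (mem_filter.1 hb).2⟩

theorem dg_le_one {G : SimpleGraph V} {v : V} (h : ∀ a b, G.Adj v a → G.Adj v b → a = b) :
    dg G v ≤ 1 := by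
  classical
  unfold dg
  rw [card_le_one]
  intro a ha b hb
  exact h a b (mem_filter.1 ha).2 (mem_filter.1 hb).2

theorem eq_of_dg_le_one {G : SimpleGraph V} {v a b : V} (h : dg G v ≤ 1) (ha : G.Adj v a)
    (hb : G.Adj v b) : a = b := by
  classical
  unfold dg at h
  rw [card_le_one] at h
  exact h a (mem_filter.2 ⟨mem_univ _, ha⟩) b (mem_filter.2 ⟨mem_univ _, hb⟩)

theorem dg_sup_le (G H : SimpleGraph V) (v : V) : dg (G ⊔ H) v ≤ dg G v + dg H v := by
  classical
  unfold dg
  refine le_trans (card_le_card ?_) (card_union_le _ _)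
  intro w hw
  have hw' : G.Adj v w ∨ H.Adj v w := by simpa using hw
  rw [mem_union, mem_filter, mem_filter]
  rcases hw' with h | h
  · exact Or.inl ⟨mem_univ _, h⟩
  · exact Or.inr ⟨mem_univ _, h⟩

theorem acyclic_of_matching {M : SimpleGraph V} (h : ∀ v, dg M v ≤ 1) : M.IsAcyclic := by
  intro v c hc
  have h1 := c.adj_snd hc.not_nil
  have h2 := c.adj_penultimate hc.not_nil
  exact hc.snd_ne_penultimate (eq_of_dg_le_one (h v) h1 h2.symm)

theorem not_reachable_of_isolated {M : SimpleGraph V} {p q : V} (hpq : p ≠ q)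
    (hq : dg M q = 0) : ¬ M.Reachable p q := by
  intro h
  obtain ⟨w⟩ := h.symm
  cases w with
  | nil => exact hpq rfl
  | cons h' _ => exact not_adj_of_dg_zero hq h'

end

theorem selBlue (h3 : S_leaf3) : S_selBlue := by
  intro V _ B M hB hM p q hpq hq
  classical
  set Pt : Set (SimpleGraph V) := {S | S ≤ B ∧
    (∀ x y u v, S.Adj x y → S.Adj u v → B.Reachable x u → (x = u ∧ y = v) ∨ (x = v ∧ y = u)) ∧
    S.Adj p q ∧ (M ⊔ S).IsAcyclic} with hPt
  have hS0 : SimpleGraph.edge p q ∈ Pt := by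
    refine ⟨?_, ?_, ?_, ?_⟩
    · intro a b hab
      rw [SimpleGraph.edge_adj] at hab
      rcases hab.1 with ⟨h1, h2⟩ | ⟨h1, h2⟩
      · rw [h1, h2]
        exact hpq
      · rw [h1, h2]
        exact hpq.symm
    · intro x y u v hxy huv _
      rw [SimpleGraph.edge_adj] at hxy huv
      rcases hxy.1 with ⟨h1, h2⟩ | ⟨h1, h2⟩ <;> rcases huv.1 with ⟨h4, h5⟩ | ⟨h4, h5⟩ <;>
        simp [h1, h2, h4, h5]
    · rw [SimpleGraph.edge_adj]
      exact ⟨Or.inl ⟨rfl, rfl⟩, hpq.ne⟩
    · rw [SimpleGraph.isAcyclic_add_edge_iff_of_not_reachable p q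
        (not_reachable_of_isolated hpq.ne hq)]
      exact acyclic_of_matching hM
  obtain ⟨S, -, hS⟩ := (Set.toFinite Pt).exists_le_maximal hS0
  obtain ⟨hSB, huniq, hSpq, hac⟩ := hS.prop
  refine ⟨S, ⟨hSB, ?_, huniq⟩, hSpq, hac⟩
  by_contra hcon
  push Not at hcon
  obtain ⟨x, y, hxy, hno⟩ := hcon
  have hdx : dg B x = 2 := by
    rcases hB x with h | h
    · exact absurd hxy (not_adj_of_dg_zero h)
    · exact h
  obtain ⟨v0, v2, hne, h0, h2⟩ := two_nbrs hdx
  have hS1 : ∀ v, dg S v ≤ 1 := by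
    intro v
    apply dg_le_one
    intro a b ha hb
    rcases huniq v a v b ha hb (SimpleGraph.Reachable.refl v) with h | h
    · exact h.2
    · exact absurd h.1 hb.ne
  have hL2 : ∀ v, dg (M ⊔ S) v ≤ 2 := by
    intro v
    have := dg_sup_le M S v
    have := hM v
    have := hS1 v
    omega
  have hLC : ∀ v, B.Reachable x v → dg (M ⊔ S) v ≤ 1 := by
    intro v hv
    apply dg_le_one
    intro a b ha hb
    have hnS : ∀ w, ¬ S.Adj v w := fun w hw => hno v w hw hv
    have ha' : M.Adj v a := by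
      rcases ha with h | h
      · exact h
      · exact absurd h (hnS a)
    have hb' : M.Adj v b := by
      rcases hb with h | h
      · exact h
      · exact absurd h (hnS b)
    exact eq_of_dg_le_one (hM v) ha' hb'
  obtain ⟨w, hw, hwr⟩ : ∃ w, B.Adj x w ∧ ¬ (M ⊔ S).Reachable x w := by
    by_cases hr : (M ⊔ S).Reachable x v0
    · exact ⟨v2, h2, h3 V (M ⊔ S) hL2 x v0 v2 h0.ne h2.ne hne
        (hLC x (SimpleGraph.Reachable.refl x)) (hLC v0 h0.reachable) (hLC v2 h2.reachable) hr⟩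
    · exact ⟨v0, h0, hr⟩
  have hnew : S ⊔ SimpleGraph.edge x w ∈ Pt := by
    refine ⟨?_, ?_, Or.inl hSpq, ?_⟩
    · apply sup_le hSB
      intro a b hab
      rw [SimpleGraph.edge_adj] at hab
      rcases hab.1 with ⟨h4, h5⟩ | ⟨h4, h5⟩
      · rw [h4, h5]
        exact hw
      · rw [h4, h5]
        exact hw.symm
    · have hin : ∀ a b, (SimpleGraph.edge x w).Adj a b → B.Reachable x a := by
        intro a b hab
        rw [SimpleGraph.edge_adj] at hab
        rcases hab.1 with ⟨h4, h5⟩ | ⟨h4, h5⟩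
        · rw [h4]
        · rw [h4]
          exact hw.reachable
      intro a b u v hab huv hr
      rcases hab with hab | hab <;> rcases huv with huv | huv
      · exact huniq a b u v hab huv hr
      · exact absurd ((hin u v huv).trans hr.symm) (hno a b hab)
      · exact absurd ((hin a b hab).trans hr) (hno u v huv)
      · rw [SimpleGraph.edge_adj] at hab huv
        rcases hab.1 with ⟨h4, h5⟩ | ⟨h4, h5⟩ <;> rcases huv.1 with ⟨h6, h7⟩ | ⟨h6, h7⟩ <;>
          simp [h4, h5, h6, h7]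
    · rw [← sup_assoc, SimpleGraph.isAcyclic_add_edge_iff_of_not_reachable x w hwr]
      exact hac
  have hle := hS.le_of_ge hnew le_sup_left
  have hadj : S.Adj x w := hle (Or.inr (by
    rw [SimpleGraph.edge_adj]
    exact ⟨Or.inl ⟨rfl, rfl⟩, hw.ne⟩))
  exact hno x w hadj (SimpleGraph.Reachable.refl x)

end Pool.Agent.Q238.PO
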